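import Pool.Agent.MT100.Stmts

/-! MT100, module EVA: values, products, analyticity of `ev`. -/

set_option autoImplicit false

namespace Pool.Agent.MT100.H47

open Polynomial

theorem eva1 (f : PowerSeries ℚ) (hf : GType f) : ∃ δ : ℝ, 0 < δ ∧ ∀ x : ℝ, |x| < δ →
    Summable fun k => |((PowerSeries.coeff k f : ℚ) : ℝ)| * |x| ^ k := by
  obtain ⟨C, hC, hb⟩ := hf
  have hC' : (0 : ℝ) < C := by exact_mod_cast hC
  refine ⟨1 / (2 * C), by positivity, fun x hx => ?_⟩
  have hx2 : (C : ℝ) * |x| < 1 := by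
    rw [lt_div_iff₀ (by positivity)] at hx
    nlinarith [abs_nonneg x]
  have hg : Summable fun k : ℕ => (C : ℝ) * ((C : ℝ) * |x|) ^ k :=
    (summable_geometric_of_lt_one (by positivity) hx2).mul_left _
  refine Summable.of_nonneg_of_le (fun k => by positivity) (fun k => ?_) hg
  have h1 : |((PowerSeries.coeff k f : ℚ) : ℝ)| ≤ (C : ℝ) ^ (k + 1) := by
    have := (hb k).1
    exact_mod_cast this
  calc |((PowerSeries.coeff k f : ℚ) : ℝ)| * |x| ^ k ≤ (C : ℝ) ^ (k + 1) * |x| ^ k :=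
        mul_le_mul_of_nonneg_right h1 (by positivity)
    _ = (C : ℝ) * ((C : ℝ) * |x|) ^ k := by
        rw [mul_pow, pow_succ]
        ring

theorem eva2 (p : ℚ[X]) (x : ℝ) :
    ev (p : PowerSeries ℚ) x = (p.map (algebraMap ℚ ℝ)).eval x := by
  unfold ev
  rw [tsum_eq_sum (s := Finset.range (p.natDegree + 1)), eval_map, eval₂_eq_sum_range]
  · refine Finset.sum_congr rfl fun k _ => ?_
    rw [Polynomial.coeff_coe]
    rfl
  · intro k hk
    rw [Finset.mem_range] at hk
    rw [Polynomial.coeff_coe, Polynomial.coeff_eq_zero_of_natDegree_lt (by omega), Rat.cast_zero,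
      zero_mul]

theorem nrm_eq (f : PowerSeries ℚ) (x : ℝ) :
    (fun k => ‖((PowerSeries.coeff k f : ℚ) : ℝ) * x ^ k‖) =
      fun k => |((PowerSeries.coeff k f : ℚ) : ℝ)| * |x| ^ k := by
  funext k
  rw [Real.norm_eq_abs, abs_mul, abs_pow]

theorem prod_coeff (f g : PowerSeries ℚ) (x : ℝ) (n : ℕ) :
    ((PowerSeries.coeff n (f * g) : ℚ) : ℝ) * x ^ n =
      ∑ kl ∈ Finset.HasAntidiagonal.antidiagonal n, (((PowerSeries.coeff kl.1 f : ℚ) : ℝ) * x ^ kl.1) *
        (((PowerSeries.coeff kl.2 g : ℚ) : ℝ) * x ^ kl.2) := by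
  rw [PowerSeries.coeff_mul, Rat.cast_sum, Finset.sum_mul]
  refine Finset.sum_congr rfl fun kl hkl => ?_
  rw [Finset.HasAntidiagonal.mem_antidiagonal] at hkl
  rw [← hkl, Rat.cast_mul, pow_add]
  ring

theorem eva3 (f g : PowerSeries ℚ) (x : ℝ)
    (hf : Summable fun k => |((PowerSeries.coeff k f : ℚ) : ℝ)| * |x| ^ k)
    (hg : Summable fun k => |((PowerSeries.coeff k g : ℚ) : ℝ)| * |x| ^ k) :
    (Summable fun k => |((PowerSeries.coeff k (f * g) : ℚ) : ℝ)| * |x| ^ k) ∧
    (Summable fun k => |((PowerSeries.coeff k (f + g) : ℚ) : ℝ)| * |x| ^ k) ∧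
    ev (f + g) x = ev f x + ev g x ∧ ev (f * g) x = ev f x * ev g x := by
  have hf' : Summable fun k => ‖((PowerSeries.coeff k f : ℚ) : ℝ) * x ^ k‖ := by
    rw [nrm_eq]
    exact hf
  have hg' : Summable fun k => ‖((PowerSeries.coeff k g : ℚ) : ℝ) * x ^ k‖ := by
    rw [nrm_eq]
    exact hg
  refine ⟨?_, ?_, ?_, ?_⟩
  · have h := summable_norm_sum_mul_antidiagonal_of_summable_norm hf' hg'
    rw [← nrm_eq]
    refine h.congr fun n => ?_
    rw [prod_coeff]
  · refine Summable.of_nonneg_of_le (fun k => by positivity) (fun k => ?_) (hf.add hg)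
    rw [map_add, Rat.cast_add, ← add_mul]
    exact mul_le_mul_of_nonneg_right (abs_add_le _ _) (by positivity)
  · unfold ev
    rw [← hf'.of_norm.tsum_add hg'.of_norm]
    refine tsum_congr fun k => ?_
    rw [map_add, Rat.cast_add, add_mul]
  · unfold ev
    rw [tsum_mul_tsum_eq_tsum_sum_antidiagonal_of_summable_norm hf' hg']
    exact tsum_congr fun n => prod_coeff f g x n

theorem eva4 (f : PowerSeries ℚ) (x : ℝ) (hx : x ≠ 0)
    (hf : Summable fun k => |((PowerSeries.coeff k f : ℚ) : ℝ)| * |x| ^ k)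
    (y : ℝ) (hy : |y| < |x|) : AnalyticAt ℝ (ev f) y := by
  set c : ℕ → ℝ := fun k => ((PowerSeries.coeff k f : ℚ) : ℝ) with hc
  set p := FormalMultilinearSeries.ofScalars ℝ c with hp
  have hev : ev f = p.sum := by
    have h1 := FormalMultilinearSeries.ofScalarsSum_eq_tsum (E := ℝ) c
    unfold FormalMultilinearSeries.ofScalarsSum at h1
    rw [hp, h1]
    funext z
    unfold ev
    exact tsum_congr fun n => by rw [smul_eq_mul]
  have hr : ((‖x‖₊ : NNReal) : ENNReal) ≤ p.radius := by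
    apply FormalMultilinearSeries.le_radius_of_summable_norm
    refine hf.congr fun n => ?_
    rw [hp, FormalMultilinearSeries.ofScalars_norm, Real.norm_eq_abs, coe_nnnorm,
      Real.norm_eq_abs]
  have hpos : 0 < p.radius := by
    refine lt_of_lt_of_le ?_ hr
    rw [ENNReal.coe_pos]
    exact nnnorm_pos.2 hx
  rw [hev]
  refine (p.hasFPowerSeriesOnBall hpos).analyticAt_of_mem ?_
  rw [Metric.mem_eball, edist_zero_right]
  refine lt_of_lt_of_le ?_ hr
  rw [enorm_eq_nnnorm, ENNReal.coe_lt_coe]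
  exact hy

/-- EVA: values -/
theorem eva : EvaStmt :=
  ⟨eva1, eva2, eva3, eva4⟩

end Pool.Agent.MT100.H47
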