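import Pool.Agent.MT100.Stmts

/-! MT100, module HGR: growth of the coefficients of the hypergeometric series. -/

set_option autoImplicit false

namespace Pool.Agent.MT100.H47R

open PowerSeries

/-- the norm of the truncation -/
noncomputable def nm (m : ℕ) (f : PowerSeries ℚ) : ℚ :=
  ∑ l ∈ Finset.range (m + 1), |coeff l f|

theorem nm_nonneg (m : ℕ) (f : PowerSeries ℚ) : 0 ≤ nm m f :=
  Finset.sum_nonneg fun _ _ => abs_nonneg _

theorem le_nm {m l : ℕ} (h : l ≤ m) (f : PowerSeries ℚ) : |coeff l f| ≤ nm m f :=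
  Finset.single_le_sum (f := fun l => |coeff l f|) (fun _ _ => abs_nonneg _)
    (Finset.mem_range.2 (Nat.lt_succ_of_le h))

theorem nm_add (m : ℕ) (f g : PowerSeries ℚ) : nm m (f + g) ≤ nm m f + nm m g := by
  unfold nm
  rw [← Finset.sum_add_distrib]
  refine Finset.sum_le_sum fun l _ => ?_
  rw [map_add]
  exact abs_add_le _ _

theorem nm_sub (m : ℕ) (f g : PowerSeries ℚ) : nm m (f - g) ≤ nm m f + nm m g := by
  unfold nm
  rw [← Finset.sum_add_distrib]
  refine Finset.sum_le_sum fun l _ => ?_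
  rw [map_sub]
  exact abs_sub _ _

theorem nm_C (m : ℕ) (c : ℚ) : nm m (C c) = |c| := by
  unfold nm
  rw [Finset.sum_eq_single 0]
  · rw [coeff_zero_C]
  · intro l _ hl
    rw [coeff_C, if_neg hl, abs_zero]
  · intro h
    exact absurd (Finset.mem_range.2 (Nat.succ_pos m)) h

theorem nm_one (m : ℕ) : nm m 1 = 1 := by
  have h := nm_C m 1
  rw [map_one, abs_one] at h
  exact h

theorem nm_X (m : ℕ) : nm m X ≤ 1 := by
  unfold nm
  have h : ∀ l, |coeff l (X : PowerSeries ℚ)| = if l = 1 then 1 else 0 := by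
    intro l
    rw [coeff_X]
    split_ifs
    · exact abs_one
    · exact abs_zero
  rw [Finset.sum_congr rfl fun l _ => h l, Finset.sum_ite_eq']
  split_ifs
  · exact le_refl _
  · exact zero_le_one

theorem nm_mul (m : ℕ) (f g : PowerSeries ℚ) : nm m (f * g) ≤ nm m f * nm m g := by
  classical
  unfold nm
  calc ∑ n ∈ Finset.range (m + 1), |coeff n (f * g)|
      ≤ ∑ n ∈ Finset.range (m + 1), ∑ p ∈ Finset.HasAntidiagonal.antidiagonal n,
          |coeff p.1 f| * |coeff p.2 g| := by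
        refine Finset.sum_le_sum fun n _ => ?_
        rw [coeff_mul]
        refine (Finset.abs_sum_le_sum_abs _ _).trans (le_of_eq ?_)
        exact Finset.sum_congr rfl fun p _ => abs_mul _ _
    _ = ∑ p ∈ (Finset.range (m + 1)).biUnion (fun n => Finset.HasAntidiagonal.antidiagonal n),
          |coeff p.1 f| * |coeff p.2 g| := by
        rw [Finset.sum_biUnion]
        intro i _ j _ hij
        rw [Function.onFun, Finset.disjoint_left]
        intro p hp hp'
        rw [Finset.HasAntidiagonal.mem_antidiagonal] at hp hp'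
        exact hij (hp.symm.trans hp')
    _ ≤ ∑ p ∈ Finset.range (m + 1) ×ˢ Finset.range (m + 1), |coeff p.1 f| * |coeff p.2 g| := by
        refine Finset.sum_le_sum_of_subset_of_nonneg ?_ fun p _ _ => by positivity
        intro p hp
        rw [Finset.mem_biUnion] at hp
        obtain ⟨n, hn, hp⟩ := hp
        rw [Finset.HasAntidiagonal.mem_antidiagonal] at hp
        rw [Finset.mem_range] at hn
        rw [Finset.mem_product, Finset.mem_range, Finset.mem_range]
        omega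
    _ = (∑ l ∈ Finset.range (m + 1), |coeff l f|) * ∑ l ∈ Finset.range (m + 1), |coeff l g| := by
        rw [Finset.sum_mul_sum, Finset.sum_product]

theorem nm_prod {ι : Type} (m : ℕ) (s : Finset ι) (f : ι → PowerSeries ℚ) (b : ι → ℚ)
    (h : ∀ i ∈ s, nm m (f i) ≤ b i) : nm m (∏ i ∈ s, f i) ≤ ∏ i ∈ s, b i := by
  classical
  induction s using Finset.induction_on with
  | empty =>
    rw [Finset.prod_empty, Finset.prod_empty, nm_one]
  | insert a s ha ih =>
    rw [Finset.prod_insert ha, Finset.prod_insert ha]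
    refine (nm_mul m _ _).trans ?_
    refine mul_le_mul (h a (Finset.mem_insert_self a s))
      (ih fun i hi => h i (Finset.mem_insert_of_mem hi)) (nm_nonneg _ _) ?_
    exact (nm_nonneg _ _).trans (h a (Finset.mem_insert_self a s))

theorem nm_pow (m : ℕ) (f : PowerSeries ℚ) (n : ℕ) : nm m (f ^ n) ≤ nm m f ^ n := by
  induction n with
  | zero => rw [pow_zero, pow_zero, nm_one]
  | succ n ih =>
    rw [pow_succ, pow_succ]
    exact (nm_mul m _ _).trans (mul_le_mul_of_nonneg_right ih (nm_nonneg _ _))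

/-- the inverse of `c + ε` -/
theorem inv_coeff {c : ℚ} (hc : 1 ≤ c) (l : ℕ) : |coeff l ((C c + X)⁻¹ : PowerSeries ℚ)| ≤ c⁻¹ := by
  have hc0 : 0 < c := lt_of_lt_of_le one_pos hc
  have hcc : constantCoeff (C c + X : PowerSeries ℚ) = c := by
    rw [map_add, constantCoeff_C, constantCoeff_X, add_zero]
  have hinv : (C c + X : PowerSeries ℚ) * (C c + X)⁻¹ = 1 :=
    PowerSeries.mul_inv_cancel _ (by rw [hcc]; exact hc0.ne')
  induction l with
  | zero =>
    have h := congrArg (constantCoeff) hinv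
    rw [map_mul, hcc, map_one] at h
    rw [coeff_zero_eq_constantCoeff_apply]
    have h2 : constantCoeff ((C c + X)⁻¹ : PowerSeries ℚ) = c⁻¹ := by
      field_simp
      linarith
    rw [h2, abs_of_pos (inv_pos.2 hc0)]
  | succ l ih =>
    have h := congrArg (coeff (l + 1)) hinv
    rw [add_mul, map_add, coeff_C_mul, coeff_succ_X_mul, coeff_one, if_neg (Nat.succ_ne_zero l)] at h
    have h2 : coeff (l + 1) ((C c + X)⁻¹ : PowerSeries ℚ) =
        - (coeff l ((C c + X)⁻¹ : PowerSeries ℚ)) / c := by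
      field_simp
      linarith
    rw [h2, abs_div, abs_neg, abs_of_pos hc0]
    exact (div_le_self (abs_nonneg _) hc).trans ih

theorem nm_inv (m : ℕ) {c : ℚ} (hc : 1 ≤ c) :
    nm m ((C c + X)⁻¹ : PowerSeries ℚ) ≤ ((m : ℚ) + 1) / c := by
  unfold nm
  calc ∑ l ∈ Finset.range (m + 1), |coeff l ((C c + X)⁻¹ : PowerSeries ℚ)|
      ≤ ∑ _l ∈ Finset.range (m + 1), c⁻¹ := Finset.sum_le_sum fun l _ => inv_coeff hc l
    _ = ((m : ℚ) + 1) / c := by
      rw [Finset.sum_const, Finset.card_range, nsmul_eq_mul, Nat.cast_add, Nat.cast_one,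
        div_eq_mul_inv]

/-- one factor -/
theorem nm_factor (m j : ℕ) {a : ℚ} (h0 : 0 < a) (h1 : a < 1) :
    nm m ((C ((j : ℚ) + a) + X) * (C ((j : ℚ) + (1 - a)) + X) *
      ((C ((j : ℚ) + 1) + X)⁻¹) ^ 2) ≤ (1 + ((m : ℚ) + 1) / ((j : ℚ) + 1)) ^ 2 := by
  have hc : (1 : ℚ) ≤ (j : ℚ) + 1 := by
    have : (0 : ℚ) ≤ j := Nat.cast_nonneg j
    linarith
  set w : PowerSeries ℚ := (C ((j : ℚ) + 1) + X)⁻¹ with hw
  have hinv : (C ((j : ℚ) + 1) + X : PowerSeries ℚ) * w = 1 :=
    PowerSeries.mul_inv_cancel _ (by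
      rw [map_add, constantCoeff_C, constantCoeff_X, add_zero]
      positivity)
  have key : ∀ b : ℚ, (C ((j : ℚ) + b) + X) * w = 1 - C (1 - b) * w := by
    intro b
    have : (C ((j : ℚ) + b) + X : PowerSeries ℚ) = (C ((j : ℚ) + 1) + X) - C (1 - b) := by
      rw [map_sub, map_add, map_add, map_one]
      ring
    rw [this, sub_mul, hinv]
  have hN : ∀ b : ℚ, |b| ≤ 1 → nm m (1 - C b * w) ≤ 1 + ((m : ℚ) + 1) / ((j : ℚ) + 1) := by
    intro b hb
    refine (nm_sub m _ _).trans ?_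
    rw [nm_one]
    refine add_le_add_right ?_ 1
    refine (nm_mul m _ _).trans ?_
    rw [nm_C]
    calc |b| * nm m w ≤ 1 * nm m w := mul_le_mul_of_nonneg_right hb (nm_nonneg _ _)
      _ = nm m w := one_mul _
      _ ≤ _ := nm_inv m hc
  have heq : (C ((j : ℚ) + a) + X) * (C ((j : ℚ) + (1 - a)) + X) * w ^ 2 =
      (1 - C (1 - a) * w) * (1 - C (1 - (1 - a)) * w) := by
    rw [← key, ← key]
    ring
  rw [heq, sq]
  refine (nm_mul m _ _).trans ?_
  refine mul_le_mul (hN _ ?_) (hN _ ?_) (nm_nonneg _ _) (by positivity)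
  · rw [abs_of_pos (by linarith)]
    linarith
  · rw [abs_of_pos (by linarith)]
    linarith

theorem bern (m j : ℕ) : 1 + ((m : ℚ) + 1) / ((j : ℚ) + 1) ≤
    (((j : ℚ) + 2) / ((j : ℚ) + 1)) ^ (m + 1) := by
  have hj : (0 : ℚ) < (j : ℚ) + 1 := by positivity
  have h := one_add_mul_le_pow (a := (1 : ℚ) / ((j : ℚ) + 1)) (by
    have : (0 : ℚ) ≤ 1 / ((j : ℚ) + 1) := by positivity
    linarith) (m + 1)
  have h1 : 1 + (1 : ℚ) / ((j : ℚ) + 1) = ((j : ℚ) + 2) / ((j : ℚ) + 1) := by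
    field_simp
    ring
  rw [h1] at h
  refine le_trans (le_of_eq ?_) h
  push_cast
  ring

theorem tele (k : ℕ) : ∏ j ∈ Finset.range k, (((j : ℚ) + 2) / ((j : ℚ) + 1)) = (k : ℚ) + 1 := by
  induction k with
  | zero => simp
  | succ k ih =>
    rw [Finset.prod_range_succ, ih]
    have hk : (0 : ℚ) < (k : ℚ) + 1 := by positivity
    rw [mul_div_cancel₀ _ hk.ne']
    push_cast
    ring

theorem nm_Ak (D : Dat) (m k : ℕ) :
    nm m (Ak D k) ≤ D.lam ^ k * ((k : ℚ) + 1) ^ ((m + 1) * (2 * D.s)) := by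
  have h1 : nm m (Ak D k) ≤ ∏ j ∈ Finset.range k, (D.lam *
      (((j : ℚ) + 2) / ((j : ℚ) + 1)) ^ ((m + 1) * (2 * D.s))) := by
    unfold Ak
    refine nm_prod m _ _ _ fun j _ => ?_
    refine (nm_mul m _ _).trans ?_
    rw [nm_C, abs_of_pos D.lam_pos]
    refine mul_le_mul_of_nonneg_left ?_ D.lam_pos.le
    have h2 := nm_prod m (Finset.univ : Finset (Fin D.s)) (fun i =>
      (C ((j : ℚ) + D.al i) + X) * (C ((j : ℚ) + (1 - D.al i)) + X) *
      ((C ((j : ℚ) + 1) + X)⁻¹) ^ 2) (fun _ => (1 + ((m : ℚ) + 1) / ((j : ℚ) + 1)) ^ 2)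
      (fun i _ => nm_factor m j (D.al_pos i) (D.al_lt i))
    refine h2.trans ?_
    rw [Finset.prod_const, Finset.card_univ, Fintype.card_fin, ← pow_mul]
    calc (1 + ((m : ℚ) + 1) / ((j : ℚ) + 1)) ^ (2 * D.s)
        ≤ ((((j : ℚ) + 2) / ((j : ℚ) + 1)) ^ (m + 1)) ^ (2 * D.s) :=
          pow_le_pow_left₀ (by positivity) (bern m j) _
      _ = _ := by rw [← pow_mul]
  refine h1.trans (le_of_eq ?_)
  rw [Finset.prod_mul_distrib, Finset.prod_const, Finset.card_range, Finset.prod_pow, tele]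

/-- HGR: growth of the coefficients -/
theorem hgr : HgrStmt := by
  intro D
  refine ⟨D.r + (D.r + 1) * (2 * D.s) + 1, fun a l k => ?_⟩
  have h0 : (1 : ℚ) ≤ (k : ℚ) + 1 := by
    have : (0 : ℚ) ≤ k := Nat.cast_nonneg k
    linarith
  unfold Hyp
  rw [coeff_mk]
  have hl : (l : ℕ) ≤ D.r := l.2.le
  refine (le_nm hl _).trans ?_
  refine (nm_mul _ _ _).trans ?_
  have h1 : nm D.r ((C (k : ℚ) + X) ^ (a : ℕ)) ≤ ((k : ℚ) + 1) ^ D.r := by
    refine (nm_pow _ _ _).trans ?_
    have h2 : nm D.r (C (k : ℚ) + X) ≤ (k : ℚ) + 1 := by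
      refine (nm_add _ _ _).trans (add_le_add ?_ (nm_X _))
      rw [nm_C, abs_of_nonneg (Nat.cast_nonneg k)]
    exact (pow_le_pow_left₀ (nm_nonneg _ _) h2 _).trans (pow_le_pow_right₀ h0 a.2.le)
  have h3 := nm_Ak D D.r k
  have hlam : (0 : ℚ) ≤ D.lam ^ k := pow_nonneg D.lam_pos.le k
  calc nm D.r ((C (k : ℚ) + X) ^ (a : ℕ)) * nm D.r (Ak D k)
      ≤ ((k : ℚ) + 1) ^ D.r * (D.lam ^ k * ((k : ℚ) + 1) ^ ((D.r + 1) * (2 * D.s))) :=
        mul_le_mul h1 h3 (nm_nonneg _ _) (by positivity)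
    _ = 1 * ((k : ℚ) + 1) ^ (D.r + (D.r + 1) * (2 * D.s)) * D.lam ^ k := by
        rw [pow_add]
        ring
    _ ≤ _ := by
        refine mul_le_mul_of_nonneg_right ?_ hlam
        refine mul_le_mul ?_ (pow_le_pow_right₀ h0 (Nat.le_succ _)) (by positivity) (by positivity)
        push_cast
        have : (0 : ℚ) ≤ (D.r : ℚ) + ((D.r : ℚ) + 1) * (2 * (D.s : ℚ)) := by positivity
        push_cast at this
        linarith

end Pool.Agent.MT100.H47R
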